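import Mathlib

set_option autoImplicit false

namespace Pool.Agent.Results.MP_e3442a_co.Counter

open Finset SimpleGraph

section defs
variable {n : ℕ} (G : SimpleGraph (Fin n))

/-- Largest order of an induced tree. -/
noncomputable def tree : ℕ := sSup {k | ∃ S : Finset (Fin n), S.card = k ∧ (G.induce S).IsTree}

/-- Eccentricity. -/
noncomputable def ecc (v : Fin n) : ℕ := univ.sup fun u => G.dist u v

/-- Independence number of the open neighbourhood of `v`. -/
noncomputable def lam (v : Fin n) : ℕ :=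
  sSup {k | ∃ S : Finset (Fin n), S.card = k ∧ (∀ u ∈ S, G.Adj v u) ∧ G.IsIndepSet S}

end defs

def lv (u : Fin 25) : ℕ :=
  if u.val < 10 then 0 else if u.val = 10 then 1 else if u.val < 14 then 2 else
    if u.val = 14 then 3 else 4

def R (u v : Fin 25) : Prop := lv u + 1 = lv v ∨ (lv u = lv v ∧ lv u ≠ 2)

def G0 : SimpleGraph (Fin 25) := SimpleGraph.fromRel R

lemma adj (u v : Fin 25) : G0.Adj u v ↔
    u ≠ v ∧ (lv u + 1 = lv v ∨ lv v + 1 = lv u ∨ (lv u = lv v ∧ lv u ≠ 2)) := by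
  rw [G0, fromRel_adj, R, R]
  refine and_congr_right fun _ => ?_
  omega

lemma lip {u v : Fin 25} (p : G0.Walk u v) : lv u ≤ lv v + p.length ∧ lv v ≤ lv u + p.length := by
  induction p with
  | nil => simp
  | cons h p ih =>
    have := ((adj _ _).1 h).2
    rw [Walk.length_cons]
    omega

lemma conn : G0.Connected := by
  have a : G0.Reachable 10 12 := ((adj _ _).2 (by decide)).reachable
  have b : G0.Reachable 12 14 := ((adj _ _).2 (by decide)).reachable
  have k : ∀ u : Fin 25, u = 10 ∨ u = 14 ∨ G0.Adj 10 u ∨ G0.Adj 14 u := by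
    simp only [adj]
    decide +kernel
  have r : ∀ u, G0.Reachable 10 u := by
    intro u
    rcases k u with rfl | rfl | h | h
    exacts [Reachable.refl _, a.trans b, h.reachable, (a.trans b).trans h.reachable]
  exact ⟨fun u v => (r u).symm.trans (r v)⟩

lemma ecc_ge (v : Fin 25) : max (lv v) (4 - lv v) ≤ ecc G0 v := by
  have d : ∀ u, lv u ≤ lv v + ecc G0 v ∧ lv v ≤ lv u + ecc G0 v := by
    intro u
    obtain ⟨p, hp⟩ := conn.exists_walk_length_eq_dist u v
    have := lip p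
    have : G0.dist u v ≤ ecc G0 v := le_sup (f := fun u => G0.dist u v) (mem_univ u)
    omega
  have a := d 0
  have b := d 24
  have : lv 0 = 0 := rfl
  have : lv 24 = 4 := rfl
  omega

lemma tri {V : Type} {H : SimpleGraph V} (h : H.IsAcyclic) {a b x : V} (h1 : H.Adj a b)
    (h2 : H.Adj a x) (h3 : H.Adj x b) : False := by
  have := h.path_unique ⟨.cons h1 .nil, by simp [h1.ne]⟩
    ⟨.cons h2 (.cons h3 .nil), by simp [h1.ne, h2.ne, h3.ne]⟩
  have := congrArg (fun p => p.1.length) this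
  simp at this

lemma quad {V : Type} {H : SimpleGraph V} (h : H.IsAcyclic) {a b x y : V} (hab : a ≠ b)
    (h1 : H.Adj a x) (h2 : H.Adj x b) (h3 : H.Adj a y) (h4 : H.Adj y b) : x = y := by
  have := h.path_unique ⟨.cons h1 (.cons h2 .nil), by simp [hab, h1.ne, h2.ne]⟩
    ⟨.cons h3 (.cons h4 .nil), by simp [hab, h3.ne, h4.ne]⟩
  have := congrArg (fun p => p.1.support) this
  simpa using this

lemma ivt (S : Finset (Fin 25)) (m : ℕ) {u v : (S : Set (Fin 25))} (p : (G0.induce S).Walk u v)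
    (h1 : lv u ≤ m) (h2 : m ≤ lv v) : ∃ z ∈ S, lv z = m := by
  induction p with
  | @nil a => exact ⟨a, a.2, by omega⟩
  | @cons a b c h p ih =>
    have := ((adj _ _).1 h).2
    by_cases e : lv a = m
    · exact ⟨a, a.2, e⟩
    · exact ih (by simp only [Function.Embedding.subtype_apply] at this; omega) h2

lemma small (S : Finset (Fin 25)) (h : (G0.induce S).IsTree) : S.card ≤ 5 := by
  have T : ∀ a ∈ S, ∀ b ∈ S, ∀ x ∈ S, G0.Adj a b → G0.Adj a x → G0.Adj x b → False :=
    fun a ha b hb x hx h1 h2 h3 =>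
      tri h.isAcyclic (a := ⟨a, ha⟩) (b := ⟨b, hb⟩) (x := ⟨x, hx⟩) h1 h2 h3
  have I : ∀ m, ∀ u ∈ S, ∀ v ∈ S, lv u ≤ m → m ≤ lv v → ∃ z ∈ S, lv z = m := by
    intro m u hu v hv h1 h2
    obtain ⟨p⟩ := h.connected.preconnected ⟨u, hu⟩ ⟨v, hv⟩
    exact ivt S m p h1 h2
  set c : ℕ → ℕ := fun m => (S.filter fun u => lv u = m).card with hc
  have tot : S.card = c 0 + c 1 + c 2 + c 3 + c 4 := by
    rw [card_eq_sum_card_fiberwise (f := lv) (t := range 5) (fun u _ => by
      have : ∀ u, lv u < 5 := by decide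
      simpa using this u)]
    simp only [sum_range_succ, sum_range_zero, zero_add, hc]
  have ub : ∀ m, c m ≤ (univ.filter fun u => lv u = m).card := fun m =>
    card_le_card (filter_subset_filter _ (subset_univ _))
  have c1 : c 1 ≤ 1 := (ub 1).trans (by decide)
  have c2 : c 2 ≤ 3 := (ub 2).trans (by decide)
  have c3 : c 3 ≤ 1 := (ub 3).trans (by decide)
  have ex : ∀ m, 0 < c m ↔ ∃ z ∈ S, lv z = m := fun m => by
    simp only [hc, card_pos, filter_nonempty_iff]
  have two : ∀ m, m ≠ 2 → c m ≤ 2 := by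
    intro m hm
    by_contra q
    obtain ⟨a, ha, b, hb, x, hx, n1, n2, n3⟩ := two_lt_card.1 (not_le.1 q)
    rw [mem_filter] at ha hb hx
    exact T a ha.1 b hb.1 x hx.1 ((adj _ _).2 ⟨n1, by omega⟩) ((adj _ _).2 ⟨n2, by omega⟩)
      ((adj _ _).2 ⟨n3.symm, by omega⟩)
  have one : ∀ m k, m ≠ 2 → (m + 1 = k ∨ k + 1 = m) → 0 < c k → c m ≤ 1 := by
    intro m k hm hk q
    obtain ⟨z, hz, e⟩ := (ex k).1 q
    refine card_le_one.2 fun a ha b hb => ?_
    rw [mem_filter] at ha hb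
    by_contra ne
    exact T a ha.1 b hb.1 z hz ((adj _ _).2 ⟨ne, by omega⟩)
      ((adj _ _).2 ⟨fun g => by rw [g] at ha; omega, by omega⟩)
      ((adj _ _).2 ⟨fun g => by rw [← g] at hb; omega, by omega⟩)
  have mid : 0 < c 1 → 0 < c 3 → c 2 ≤ 1 := by
    intro q1 q3
    obtain ⟨a, ha, ea⟩ := (ex 1).1 q1
    obtain ⟨b, hb, eb⟩ := (ex 3).1 q3
    refine card_le_one.2 fun x hx y hy => ?_
    rw [mem_filter] at hx hy
    have A : ∀ z, lv z = 2 → G0.Adj a z ∧ G0.Adj z b := fun z e =>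
      ⟨(adj _ _).2 ⟨fun g => by rw [g] at ea; omega, by omega⟩,
        (adj _ _).2 ⟨fun g => by rw [← g] at eb; omega, by omega⟩⟩
    exact congrArg Subtype.val (quad h.isAcyclic (a := ⟨a, ha⟩) (b := ⟨b, hb⟩) (x := ⟨x, hx.1⟩)
      (y := ⟨y, hy.1⟩) (fun g => by
        have : a = b := congrArg Subtype.val g
        rw [this] at ea; omega) (A x hx.2).1 (A x hx.2).2 (A y hy.2).1 (A y hy.2).2)
  have btw : ∀ i m j, i ≤ m → m ≤ j → 0 < c i → 0 < c j → 0 < c m := by
    intro i m j h1 h2 q1 q2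
    obtain ⟨a, ha, ea⟩ := (ex i).1 q1
    obtain ⟨b, hb, eb⟩ := (ex j).1 q2
    exact (ex m).2 (I m a ha b hb (by omega) (by omega))
  have t0 := two 0 (by omega)
  have t4 := two 4 (by omega)
  have o0 := one 0 1 (by omega) (by omega)
  have o4 := one 4 3 (by omega) (by omega)
  have b1 := btw 0 1 2 (by omega) (by omega)
  have b2 := btw 0 1 3 (by omega) (by omega)
  have b3 := btw 0 1 4 (by omega) (by omega)
  have b4 := btw 1 3 4 (by omega) (by omega)
  have b5 := btw 2 3 4 (by omega) (by omega)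
  omega

theorem result : ¬ ∀ (n : ℕ) (G : SimpleGraph (Fin n)), G.Connected →
    ⌈(∑ v, (ecc G v : ℝ)) / n + ((univ.sup (lam G) : ℕ) : ℝ) / 3⌉ ≤ (tree G : ℤ) := by
  intro H
  have h := Int.ceil_le.1 (H 25 G0 conn)
  have t : tree G0 ≤ 5 := csSup_le' (by
    rintro _ ⟨S, rfl, hS⟩
    exact small S hS)
  have l : 4 ≤ univ.sup (lam G0) := by
    refine le_trans ?_ (le_sup (f := lam G0) (mem_univ 10))
    refine le_csSup ⟨25, ?_⟩ ⟨{0, 11, 12, 13}, by decide, ?_, ?_⟩
    · rintro _ ⟨S, rfl, -⟩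
      simpa using card_le_univ S
    · simp only [adj]
      decide
    · have : ∀ x ∈ ({0, 11, 12, 13} : Finset (Fin 25)), ∀ y ∈ ({0, 11, 12, 13} : Finset (Fin 25)),
          ¬ G0.Adj x y := by
        simp only [adj]
        decide
      exact fun x hx y hy _ => this x hx y hy
  have e : 92 ≤ ∑ v, ecc G0 v :=
    le_trans (by decide +kernel) (sum_le_sum fun v _ => ecc_ge v)
  have e' : (92 : ℝ) ≤ ∑ v, (ecc G0 v : ℝ) := by exact_mod_cast e
  have l' : (4 : ℝ) ≤ ((univ.sup (lam G0) : ℕ) : ℝ) := by exact_mod_cast l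
  have t' : (tree G0 : ℝ) ≤ 5 := by exact_mod_cast t
  push_cast at h
  linarith

end Pool.Agent.Results.MP_e3442a_co.Counter
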